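import Mathlib

set_option autoImplicit false

namespace Pool.Agent.Helper20.HK

open Matrix

/-- The Hankel determinant of size `n` with shift `p`. -/
def hank (f : ℕ → ℤ) (p n : ℕ) : ℤ :=
  Matrix.det (Matrix.of fun (i j : Fin n) => f (p + i + j))

lemma hank_zero (f : ℕ → ℤ) (p : ℕ) : hank f p 0 = 1 := by
  unfold hank; exact Matrix.det_isEmpty

lemma hank_one (f : ℕ → ℤ) (p : ℕ) : hank f p 1 = f p := by
  unfold hank; simp

/-- The even/odd equivalence. -/
def parityEquiv (n : ℕ) : Fin ((n + 1) / 2) ⊕ Fin (n / 2) ≃ Fin n where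
  toFun x := match x with
    | Sum.inl a => ⟨2 * a, by omega⟩
    | Sum.inr a => ⟨2 * a + 1, by omega⟩
  invFun i := if h : (i : ℕ) % 2 = 0 then Sum.inl ⟨i / 2, by omega⟩
    else Sum.inr ⟨i / 2, by omega⟩
  left_inv x := by
    rcases x with a | a
    · have : (2 * (a : ℕ)) % 2 = 0 := by omega
      simp [this]
    · have : (2 * (a : ℕ) + 1) % 2 ≠ 0 := by omega
      simp only [this, dite_false]
      congr 1
      ext
      simp only
      omega
  right_inv i := by
    by_cases h : (i : ℕ) % 2 = 0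
    · simp only [h, dite_true]
      ext
      simp only
      omega
    · simp only [h, dite_false]
      ext
      simp only
      omega

lemma parityEquiv_inl (n : ℕ) (a : Fin ((n + 1) / 2)) :
    ((parityEquiv n (Sum.inl a) : Fin n) : ℕ) = 2 * a := rfl

lemma parityEquiv_inr (n : ℕ) (a : Fin (n / 2)) :
    ((parityEquiv n (Sum.inr a) : Fin n) : ℕ) = 2 * a + 1 := rfl

/-- Block decomposition when odd rows vanish on even columns. -/
lemma det_parity₂₁ {n : ℕ} (M : ℕ → ℕ → ℤ) (h : ∀ a b, 2 * a + 1 < n → 2 * b < n →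
    M (2 * a + 1) (2 * b) = 0) :
    Matrix.det (Matrix.of fun (i j : Fin n) => M i j) =
      Matrix.det (Matrix.of fun (i j : Fin ((n + 1) / 2)) => M (2 * i) (2 * j)) *
      Matrix.det (Matrix.of fun (i j : Fin (n / 2)) => M (2 * i + 1) (2 * j + 1)) := by
  rw [← Matrix.det_submatrix_equiv_self (parityEquiv n)]
  have : (Matrix.of fun (i j : Fin n) => M i j).submatrix (parityEquiv n) (parityEquiv n) =
      Matrix.fromBlocks (Matrix.of fun (i j : Fin ((n + 1) / 2)) => M (2 * i) (2 * j))
        (Matrix.of fun (i : Fin ((n + 1) / 2)) (j : Fin (n / 2)) => M (2 * i) (2 * j + 1)) 0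
        (Matrix.of fun (i j : Fin (n / 2)) => M (2 * i + 1) (2 * j + 1)) := by
    ext x y
    rcases x with a | a <;> rcases y with b | b
    · simp [parityEquiv_inl]
    · simp [parityEquiv_inl, parityEquiv_inr]
    · simp only [Matrix.submatrix_apply, Matrix.of_apply, Matrix.fromBlocks_apply₂₁,
        Matrix.zero_apply, parityEquiv_inl, parityEquiv_inr]
      apply h <;> omega
    · simp [parityEquiv_inr]
  rw [this, Matrix.det_fromBlocks_zero₂₁]

/-- Block decomposition when even rows vanish on odd columns. -/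
lemma det_parity₁₂ {n : ℕ} (M : ℕ → ℕ → ℤ) (h : ∀ a b, 2 * a < n → 2 * b + 1 < n →
    M (2 * a) (2 * b + 1) = 0) :
    Matrix.det (Matrix.of fun (i j : Fin n) => M i j) =
      Matrix.det (Matrix.of fun (i j : Fin ((n + 1) / 2)) => M (2 * i) (2 * j)) *
      Matrix.det (Matrix.of fun (i j : Fin (n / 2)) => M (2 * i + 1) (2 * j + 1)) := by
  rw [← Matrix.det_submatrix_equiv_self (parityEquiv n)]
  have : (Matrix.of fun (i j : Fin n) => M i j).submatrix (parityEquiv n) (parityEquiv n) =
      Matrix.fromBlocks (Matrix.of fun (i j : Fin ((n + 1) / 2)) => M (2 * i) (2 * j)) 0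
        (Matrix.of fun (i : Fin (n / 2)) (j : Fin ((n + 1) / 2)) => M (2 * i + 1) (2 * j))
        (Matrix.of fun (i j : Fin (n / 2)) => M (2 * i + 1) (2 * j + 1)) := by
    ext x y
    rcases x with a | a <;> rcases y with b | b
    · simp [parityEquiv_inl]
    · simp only [Matrix.submatrix_apply, Matrix.of_apply, Matrix.fromBlocks_apply₁₂,
        Matrix.zero_apply, parityEquiv_inl, parityEquiv_inr]
      apply h <;> omega
    · simp [parityEquiv_inl, parityEquiv_inr]
    · simp [parityEquiv_inr]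
  rw [this, Matrix.det_fromBlocks_zero₁₂]

/-- Differences with the previous row. -/
lemma det_first {n : ℕ} (M : ℕ → ℕ → ℤ) :
    Matrix.det (Matrix.of fun (i j : Fin n) => M i j) =
      Matrix.det (Matrix.of fun (i j : Fin n) =>
        if (i : ℕ) = 0 then M i j else M i j - M (i - 1) j) := by
  rcases n with _ | n
  · simp
  apply Matrix.det_eq_of_forall_row_eq_smul_add_pred (fun _ => 1)
  · intro j; simp
  · intro i j
    simp

/-- Differences with the next row. -/
lemma det_last {n : ℕ} (M : ℕ → ℕ → ℤ) :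
    Matrix.det (Matrix.of fun (i j : Fin n) => M i j) =
      Matrix.det (Matrix.of fun (i j : Fin n) =>
        if (i : ℕ) + 1 = n then M i j else M i j - M (i + 1) j) := by
  rcases n with _ | n
  · simp
  rw [← Matrix.det_submatrix_equiv_self (Fin.revPerm)]
  conv_rhs => rw [← Matrix.det_submatrix_equiv_self (Fin.revPerm)]
  apply Matrix.det_eq_of_forall_row_eq_smul_add_pred (fun _ => 1)
  · intro j
    simp
  · intro i j
    have hi : (i : ℕ) < n := i.2
    have h1 : ¬ (n - ((i : ℕ) + 1) = n) := by omega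
    have h2 : n - ((i : ℕ) + 1) + 1 = n - i := by omega
    simp [h1, h2]

/-- Negation of all entries. -/
lemma det_neg_of {n : ℕ} (M : ℕ → ℕ → ℤ) :
    Matrix.det (Matrix.of fun (i j : Fin n) => - M i j) =
      (-1) ^ n * Matrix.det (Matrix.of fun (i j : Fin n) => M i j) := by
  have : (Matrix.of fun (i j : Fin n) => - M i j) = -(Matrix.of fun (i j : Fin n) => M i j) := by
    ext i j; simp
  rw [this, Matrix.det_neg, Fintype.card_fin]

section doubling

variable {f h dh : ℕ → ℤ} (hf : ∀ l, f (2 * l) = h l) (hf' : ∀ l, f (2 * l + 1) = h l)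
  (hd : ∀ l, dh (l + 1) = h (l + 1) - h l)

include hf hf' hd

/-- Doubling, even shift. -/
lemma double_even (q n : ℕ) :
    hank f (2 * q) n = hank h q ((n + 1) / 2) * hank dh (q + 1) (n / 2) := by
  unfold hank
  rw [det_first (fun i j => f (2 * q + i + j)),
    det_parity₂₁ (fun i j => if i = 0 then f (2 * q + i + j) else
      f (2 * q + i + j) - f (2 * q + (i - 1) + j))]
  · congr 1
    · rw [det_first (fun i j => h (q + i + j))]
      congr 1
      ext i j
      simp only [Matrix.of_apply]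
      by_cases hi : (i : ℕ) = 0
      · rw [if_pos (by omega), if_pos hi, ← hf]
        congr 1; omega
      · rw [if_neg (by omega), if_neg hi, ← hf, ← hf']
        congr 2 <;> omega
    · congr 1
      ext i j
      simp only [Matrix.of_apply]
      rw [if_neg (by omega), show q + 1 + (i : ℕ) + j = (q + i + j) + 1 by ring, hd, ← hf, ← hf']
      congr 2 <;> omega
  · intro a b _ _
    rw [if_neg (by omega)]
    have e1 : 2 * q + (2 * a + 1) + 2 * b = 2 * (q + a + b) + 1 := by ring
    have e2 : 2 * q + (2 * a + 1 - 1) + 2 * b = 2 * (q + a + b) := by omega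
    rw [e1, e2, hf, hf', sub_self]

/-- Doubling, odd shift, even size. -/
lemma double_odd_even (q m : ℕ) :
    hank f (2 * q + 1) (2 * m) = (-1) ^ m * hank h (q + 1) m * hank dh (q + 1) m := by
  unfold hank
  rw [det_last (fun i j => f (2 * q + 1 + i + j)),
    det_parity₁₂ (n := 2 * m) (fun i j => if i + 1 = 2 * m then f (2 * q + 1 + i + j) else
      f (2 * q + 1 + i + j) - f (2 * q + 1 + (i + 1) + j))]
  · have e1 : (2 * m + 1) / 2 = m := by omega
    have e2 : 2 * m / 2 = m := by omega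
    rw [e1, e2]
    have a1 : Matrix.det (Matrix.of fun (i j : Fin m) =>
        if 2 * (i : ℕ) + 1 = 2 * m then f (2 * q + 1 + 2 * i + 2 * j) else
          f (2 * q + 1 + 2 * i + 2 * j) - f (2 * q + 1 + (2 * i + 1) + 2 * j)) =
        (-1) ^ m * Matrix.det (Matrix.of fun (i j : Fin m) => dh (q + 1 + i + j)) := by
      rw [← det_neg_of (fun i j => dh (q + 1 + i + j))]
      congr 1
      ext i j
      simp only [Matrix.of_apply]
      rw [if_neg (by omega), show q + 1 + (i : ℕ) + j = (q + i + j) + 1 by ring, hd]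
      have e1 : 2 * q + 1 + 2 * (i : ℕ) + 2 * j = 2 * (q + i + j) + 1 := by ring
      have e2 : 2 * q + 1 + (2 * (i : ℕ) + 1) + 2 * j = 2 * (q + i + j + 1) := by ring
      rw [e1, e2, hf, hf']
      ring
    have a2 : Matrix.det (Matrix.of fun (i j : Fin m) =>
        if 2 * (i : ℕ) + 1 + 1 = 2 * m then f (2 * q + 1 + (2 * i + 1) + (2 * j + 1)) else
          f (2 * q + 1 + (2 * i + 1) + (2 * j + 1)) -
            f (2 * q + 1 + (2 * i + 1 + 1) + (2 * j + 1))) =
        Matrix.det (Matrix.of fun (i j : Fin m) => h (q + 1 + i + j)) := by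
      rw [det_last (fun i j => h (q + 1 + i + j))]
      congr 1
      ext i j
      simp only [Matrix.of_apply]
      have e1 : 2 * q + 1 + (2 * (i : ℕ) + 1) + (2 * j + 1) = 2 * (q + 1 + i + j) + 1 := by ring
      have e2 : 2 * q + 1 + (2 * (i : ℕ) + 1 + 1) + (2 * j + 1) = 2 * (q + 1 + (i + 1) + j) := by
        ring
      rw [e1, e2, hf, hf']
      by_cases hi : (i : ℕ) + 1 = m
      · rw [if_pos (by omega), if_pos hi]
      · rw [if_neg (by omega), if_neg hi]
    rw [a1, a2]
    ring
  · intro a b _ _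
    rw [if_neg (by omega)]
    have e1 : 2 * q + 1 + 2 * a + (2 * b + 1) = 2 * (q + a + b + 1) := by ring
    have e2 : 2 * q + 1 + (2 * a + 1) + (2 * b + 1) = 2 * (q + a + b + 1) + 1 := by ring
    rw [e1, e2, hf, hf', sub_self]

/-- Doubling, odd shift, odd size. -/
lemma double_odd_odd (q m : ℕ) :
    hank f (2 * q + 1) (2 * m + 1) = (-1) ^ m * hank h q (m + 1) * hank dh (q + 2) m := by
  unfold hank
  rw [det_last (fun i j => f (2 * q + 1 + i + j)),
    det_parity₂₁ (n := 2 * m + 1) (fun i j => if i + 1 = 2 * m + 1 then f (2 * q + 1 + i + j) else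
      f (2 * q + 1 + i + j) - f (2 * q + 1 + (i + 1) + j))]
  · have e1 : (2 * m + 1 + 1) / 2 = m + 1 := by omega
    have e2 : (2 * m + 1) / 2 = m := by omega
    rw [e1, e2]
    have a1 : Matrix.det (Matrix.of fun (i j : Fin (m + 1)) =>
        if 2 * (i : ℕ) + 1 = 2 * m + 1 then f (2 * q + 1 + 2 * i + 2 * j) else
          f (2 * q + 1 + 2 * i + 2 * j) - f (2 * q + 1 + (2 * i + 1) + 2 * j)) =
        Matrix.det (Matrix.of fun (i j : Fin (m + 1)) => h (q + i + j)) := by
      rw [det_last (fun i j => h (q + i + j))]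
      congr 1
      ext i j
      simp only [Matrix.of_apply]
      have e1 : 2 * q + 1 + 2 * (i : ℕ) + 2 * j = 2 * (q + i + j) + 1 := by ring
      have e2 : 2 * q + 1 + (2 * (i : ℕ) + 1) + 2 * j = 2 * (q + (i + 1) + j) := by ring
      rw [e1, e2, hf, hf']
      by_cases hi : (i : ℕ) + 1 = m + 1
      · rw [if_pos (by omega), if_pos hi]
      · rw [if_neg (by omega), if_neg hi]
    have a2 : Matrix.det (Matrix.of fun (i j : Fin m) =>
        if 2 * (i : ℕ) + 1 + 1 = 2 * m + 1 then f (2 * q + 1 + (2 * i + 1) + (2 * j + 1)) else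
          f (2 * q + 1 + (2 * i + 1) + (2 * j + 1)) -
            f (2 * q + 1 + (2 * i + 1 + 1) + (2 * j + 1))) =
        (-1) ^ m * Matrix.det (Matrix.of fun (i j : Fin m) => dh (q + 2 + i + j)) := by
      rw [← det_neg_of (fun i j => dh (q + 2 + i + j))]
      congr 1
      ext i j
      simp only [Matrix.of_apply]
      rw [if_neg (by omega), show q + 2 + (i : ℕ) + j = (q + 1 + i + j) + 1 by ring, hd]
      have e1 : 2 * q + 1 + (2 * (i : ℕ) + 1) + (2 * j + 1) = 2 * (q + 1 + i + j) + 1 := by ring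
      have e2 : 2 * q + 1 + (2 * (i : ℕ) + 1 + 1) + (2 * j + 1) = 2 * (q + 1 + i + j + 1) := by
        ring
      rw [e1, e2, hf, hf']
      ring
    rw [a1, a2]
    ring
  · intro a b _ _
    rw [if_neg (by omega)]
    have e1 : 2 * q + 1 + (2 * a + 1) + 2 * b = 2 * (q + a + b + 1) := by ring
    have e2 : 2 * q + 1 + (2 * a + 1 + 1) + 2 * b = 2 * (q + a + b + 1) + 1 := by ring
    rw [e1, e2, hf, hf', sub_self]

end doubling

section even_support

variable {f h : ℕ → ℤ} (hf : ∀ l, f (2 * l) = h l) (hf' : ∀ l, f (2 * l + 1) = 0)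

include hf hf'

/-- Even support, even shift. -/
lemma supp_even (q n : ℕ) :
    hank f (2 * q) n = hank h q ((n + 1) / 2) * hank h (q + 1) (n / 2) := by
  unfold hank
  rw [det_parity₂₁ (fun i j => f (2 * q + i + j))]
  · congr 1
    · congr 1
      ext i j
      simp only [Matrix.of_apply]
      rw [← hf]; congr 1; ring
    · congr 1
      ext i j
      simp only [Matrix.of_apply]
      rw [← hf]; congr 1; ring
  · intro a b _ _
    have e1 : 2 * q + (2 * a + 1) + 2 * b = 2 * (q + a + b) + 1 := by ring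
    rw [e1, hf']

omit hf in
/-- Even support, odd shift, odd size. -/
lemma supp_odd_odd (q m : ℕ) : hank f (2 * q + 1) (2 * m + 1) = 0 := by
  unfold hank
  set A : Matrix (Fin (2 * m + 1)) (Fin (2 * m + 1)) ℤ :=
    Matrix.of fun (i j : Fin (2 * m + 1)) => f (2 * q + 1 + i + j) with hA
  have key : ∀ k : ℕ, (-1 : ℤ) ^ k * f (2 * q + 1 + k) = - f (2 * q + 1 + k) := by
    intro k
    rcases Nat.even_or_odd' k with ⟨l, rfl | rfl⟩
    · have : 2 * q + 1 + 2 * l = 2 * (q + l) + 1 := by ring
      rw [this, hf']; simp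
    · rw [pow_succ, pow_mul]; simp
  have h1 : (Matrix.of fun (i j : Fin (2 * m + 1)) => (-1 : ℤ) ^ (i : ℕ) *
      (Matrix.of fun (i j : Fin (2 * m + 1)) => (-1 : ℤ) ^ (j : ℕ) * A i j) i j) = -A := by
    ext i j
    simp only [Matrix.of_apply, Matrix.neg_apply, hA]
    have := key ((i : ℕ) + j)
    rw [← mul_assoc, ← pow_add]
    rw [show 2 * q + 1 + (i : ℕ) + j = 2 * q + 1 + (i + j) by ring]
    exact this
  have h2 := congrArg Matrix.det h1
  rw [Matrix.det_neg, Fintype.card_fin] at h2
  have h3 : (-1 : ℤ) ^ (2 * m + 1) = -1 := by rw [pow_succ, pow_mul]; simp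
  rw [h3] at h2
  have h4 : Matrix.det (Matrix.of fun (i j : Fin (2 * m + 1)) => (-1 : ℤ) ^ (i : ℕ) *
      (Matrix.of fun (i j : Fin (2 * m + 1)) => (-1 : ℤ) ^ (j : ℕ) * A i j) i j) =
      (∏ i : Fin (2 * m + 1), (-1 : ℤ) ^ (i : ℕ)) *
        ((∏ i : Fin (2 * m + 1), (-1 : ℤ) ^ (i : ℕ)) * Matrix.det A) := by
    rw [Matrix.det_mul_column, Matrix.det_mul_row]
  rw [h4, ← mul_assoc] at h2
  have h5 : (∏ i : Fin (2 * m + 1), (-1 : ℤ) ^ (i : ℕ)) *
      (∏ i : Fin (2 * m + 1), (-1 : ℤ) ^ (i : ℕ)) = 1 := by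
    rw [← Finset.prod_mul_distrib]
    apply Finset.prod_eq_one
    intro i _
    rw [← mul_pow]; simp
  rw [h5] at h2
  linarith

/-- Even support, odd shift, even size. -/
lemma supp_odd_even (q m : ℕ) :
    hank f (2 * q + 1) (2 * m) = (-1) ^ m * hank h (q + 1) m ^ 2 := by
  unfold hank
  have e1 : (2 * m + 1) / 2 = m := by omega
  have e2 : 2 * m / 2 = m := by omega
  set B : Matrix (Fin m) (Fin m) ℤ := Matrix.of fun (i j : Fin m) => h (q + 1 + i + j) with hB
  -- equivalence with blocks of equal size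
  let E : Fin m ⊕ Fin m ≃ Fin (2 * m) :=
    (Equiv.sumCongr (finCongr e1.symm) (finCongr e2.symm)).trans (parityEquiv (2 * m))
  rw [← Matrix.det_submatrix_equiv_self E]
  have hE : (Matrix.of fun (i j : Fin (2 * m)) => f (2 * q + 1 + i + j)).submatrix E E =
      Matrix.fromBlocks 0 B B 0 := by
    ext x y
    have El : ∀ a : Fin m, ((E (Sum.inl a) : Fin (2 * m)) : ℕ) = 2 * a := fun a => rfl
    have Er : ∀ a : Fin m, ((E (Sum.inr a) : Fin (2 * m)) : ℕ) = 2 * a + 1 := fun a => rfl
    rcases x with a | a <;> rcases y with b | b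
    · simp only [Matrix.submatrix_apply, Matrix.of_apply, Matrix.fromBlocks_apply₁₁,
        Matrix.zero_apply, El]
      rw [show 2 * q + 1 + 2 * (a : ℕ) + 2 * b = 2 * (q + a + b) + 1 by ring, hf']
    · simp only [Matrix.submatrix_apply, Matrix.of_apply, Matrix.fromBlocks_apply₁₂, El, Er, hB]
      rw [← hf]; congr 1; ring
    · simp only [Matrix.submatrix_apply, Matrix.of_apply, Matrix.fromBlocks_apply₂₁, El, Er, hB]
      rw [← hf]; congr 1; ring
    · simp only [Matrix.submatrix_apply, Matrix.of_apply, Matrix.fromBlocks_apply₂₂,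
        Matrix.zero_apply, Er]
      rw [show 2 * q + 1 + (2 * (a : ℕ) + 1) + (2 * b + 1) = 2 * (q + a + b + 1) + 1 by ring, hf']
  rw [hE]
  have h1 : (Matrix.fromBlocks 0 B B 0) * (Matrix.fromBlocks 1 0 1 1) *
      (Matrix.fromBlocks 1 (-1) 0 1 : Matrix (Fin m ⊕ Fin m) (Fin m ⊕ Fin m) ℤ) =
      Matrix.fromBlocks B 0 B (-B) := by
    rw [Matrix.fromBlocks_multiply, Matrix.fromBlocks_multiply]
    simp
  have h2 := congrArg Matrix.det h1
  rw [Matrix.det_mul, Matrix.det_mul, Matrix.det_fromBlocks_zero₁₂, Matrix.det_fromBlocks_zero₂₁,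
    Matrix.det_fromBlocks_zero₁₂, Matrix.det_neg, Fintype.card_fin] at h2
  simp only [Matrix.det_one, mul_one] at h2
  rw [h2]
  ring

end even_support

/-- Alternating sign twist. -/
lemma hank_twist {f g : ℕ → ℤ} (hg : ∀ l, g l = (-1) ^ l * f l) (p n : ℕ) :
    hank g p n = (-1) ^ (p * n) * hank f p n := by
  unfold hank
  have h1 : (Matrix.of fun (i j : Fin n) => g (p + i + j)) =
      (Matrix.of fun (i j : Fin n) => (-1 : ℤ) ^ (p + i : ℕ) *
      (Matrix.of fun (i j : Fin n) => (-1 : ℤ) ^ (j : ℕ) * f (p + i + j)) i j) := by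
    ext i j
    simp only [Matrix.of_apply]
    rw [hg, ← mul_assoc, ← pow_add]
  rw [h1, Matrix.det_mul_column]
  have h2 := Matrix.det_mul_row (fun j : Fin n => (-1 : ℤ) ^ (j : ℕ))
    (Matrix.of fun (i j : Fin n) => f (p + i + j))
  simp only [Matrix.of_apply] at h2
  rw [h2]
  rw [← mul_assoc, ← Finset.prod_mul_distrib]
  congr 1
  have : ∀ i : Fin n, (-1 : ℤ) ^ (p + i : ℕ) * (-1) ^ (i : ℕ) = (-1) ^ p := by
    intro i
    rw [pow_add, mul_assoc, ← mul_pow]; simp
  rw [Finset.prod_congr rfl (fun i _ => this i)]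
  rw [Finset.prod_const, Finset.card_univ, Fintype.card_fin, pow_mul]

end Pool.Agent.Helper20.HK
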