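import Mathlib
import Pool.Agent.Helper20.HK.Split

set_option autoImplicit false

namespace Pool.Agent.Helper20.HK

/-- Indicator of the Moser-de Bruijn set (base four digits all 0 or 1). -/
def mu (n : ℕ) : ℤ :=
  if n = 0 then 1 else if n % 4 < 2 then mu (n / 4) else 0
termination_by n
decreasing_by omega

lemma mu_zero : mu 0 = 1 := by rw [mu]; simp

lemma mu_four_zero {n l : ℕ} (h : n = 4 * l) : mu n = mu l := by
  subst h
  rcases Nat.eq_zero_or_pos l with rfl | hl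
  · rfl
  · rw [mu, if_neg (by omega), if_pos (by omega)]
    congr 1; omega

lemma mu_four_one {n l : ℕ} (h : n = 4 * l + 1) : mu n = mu l := by
  subst h
  rw [mu, if_neg (by omega), if_pos (by omega)]
  congr 1; omega

lemma mu_four_two {n l : ℕ} (h : n = 4 * l + 2) : mu n = 0 := by
  subst h
  rw [mu, if_neg (by omega), if_neg (by omega)]

lemma mu_four_three {n l : ℕ} (h : n = 4 * l + 3) : mu n = 0 := by
  subst h
  rw [mu, if_neg (by omega), if_neg (by omega)]

lemma mu_zero_or_one (n : ℕ) : mu n = 0 ∨ mu n = 1 := by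
  induction n using Nat.strong_induction_on with
  | _ n ih =>
    rcases Nat.eq_zero_or_pos n with rfl | hn
    · right; exact mu_zero
    · rw [mu, if_neg (by omega)]
      split_ifs
      · exact ih _ (by omega)
      · left; rfl

lemma mu_mul_self (n : ℕ) : mu n * mu n = mu n := by
  rcases mu_zero_or_one n with h | h <;> rw [h] <;> norm_num

/-- `nu l = mu (2 l)`. -/
def nu (l : ℕ) : ℤ := mu (2 * l)

/-- The shifted coefficient sequence. -/
def dd (k : ℕ) : ℤ := mu (k / 2)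

/-- Differences of `mu`. -/
def ee : ℕ → ℤ
  | 0 => 1
  | (l + 1) => mu (l + 1) - mu l

/-- Differences of `nu`. -/
def gg : ℕ → ℤ
  | 0 => 1
  | (l + 1) => nu (l + 1) - nu l

lemma nu_even (l : ℕ) : nu (2 * l) = mu l := mu_four_zero (by ring)

lemma nu_odd (l : ℕ) : nu (2 * l + 1) = 0 := mu_four_two (l := l) (by ring)

lemma mu_even (l : ℕ) : mu (2 * l) = nu l := rfl

lemma mu_odd (l : ℕ) : mu (2 * l + 1) = nu l := by
  rcases Nat.even_or_odd' l with ⟨x, rfl | rfl⟩
  · rw [nu_even, mu_four_one (l := x) (by ring)]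
  · rw [nu_odd, mu_four_three (l := x) (by ring)]

lemma dd_even (l : ℕ) : dd (2 * l) = mu l := by unfold dd; congr 1; omega

lemma dd_odd (l : ℕ) : dd (2 * l + 1) = mu l := by unfold dd; congr 1; omega

lemma ee_odd (l : ℕ) : ee (2 * l + 1) = 0 := by
  show mu (2 * l + 1) - mu (2 * l) = 0
  rw [mu_odd, mu_even, sub_self]

lemma ee_even (l : ℕ) : ee (2 * l) = gg l := by
  rcases l with _ | l
  · rfl
  · show mu (2 * l + 1 + 1) - mu (2 * l + 1) = nu (l + 1) - nu l
    rw [mu_odd, show 2 * l + 1 + 1 = 2 * (l + 1) by ring, mu_even]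

lemma gg_twist (l : ℕ) : gg l = (-1) ^ l * dd l := by
  rcases l with _ | l
  · show (1 : ℤ) = _; unfold dd; rw [pow_zero, one_mul]; exact mu_zero.symm
  · show nu (l + 1) - nu l = _
    rcases Nat.even_or_odd' l with ⟨x, rfl | rfl⟩
    · rw [nu_odd, nu_even, dd_odd, pow_succ, pow_mul]; simp
    · rw [show 2 * x + 1 + 1 = 2 * (x + 1) by ring, nu_even, nu_odd, dd_even, pow_mul]; simp

/-! ### closed forms -/

/-- Closed form of several families. -/
def cX (n : ℕ) : ℤ := if n % 2 = 0 then (-1) ^ (n / 2) * mu (n / 2) else 0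

/-- Closed form of the `mu` family with offset 0. -/
def cX0 : ℕ → ℤ
  | 0 => 1
  | (k + 1) => cX k

/-- Closed form. -/
def cD0 (n : ℕ) : ℤ :=
  if n = 0 then 1 else if n % 4 = 1 then mu (n / 4) else if n % 4 = 2 then - mu (n / 4) else 0

/-- Closed form. -/
def cD3 (n : ℕ) : ℤ :=
  if n % 4 = 0 then mu (n / 4) else if n % 4 = 3 then - mu (n / 4 + 1) else 0

/-- Closed form. -/
def cY1 (n : ℕ) : ℤ := (-1) ^ n * ((-1) ^ (n / 2) * mu (n / 2))

/-- Closed form. -/
def cY3 (n : ℕ) : ℤ :=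
  if n % 2 = 0 then (-1) ^ (n / 2) * mu (n / 2) else mu (n / 2 + 1) * cD3 (n / 2)

lemma cX_even {n x : ℕ} (h : n = 2 * x) : cX n = (-1) ^ x * mu x := by
  subst h; unfold cX
  rw [if_pos (by omega)]; congr 2 <;> omega

lemma cX_odd {n x : ℕ} (h : n = 2 * x + 1) : cX n = 0 := by
  subst h; unfold cX
  rw [if_neg (by omega)]

lemma cD0_one {n x : ℕ} (h : n = 4 * x + 1) : cD0 n = mu x := by
  subst h; unfold cD0
  rw [if_neg (by omega), if_pos (by omega)]; congr 1; omega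

lemma cD0_two {n x : ℕ} (h : n = 4 * x + 2) : cD0 n = - mu x := by
  subst h; unfold cD0
  rw [if_neg (by omega), if_neg (by omega), if_pos (by omega)]; congr 2; omega

lemma cD0_three {n x : ℕ} (h : n = 4 * x + 3) : cD0 n = 0 := by
  subst h; unfold cD0
  rw [if_neg (by omega), if_neg (by omega), if_neg (by omega)]

lemma cD0_four {n x : ℕ} (h : n = 4 * x + 4) : cD0 n = 0 := by
  subst h; unfold cD0
  rw [if_neg (by omega), if_neg (by omega), if_neg (by omega)]

lemma cD3_zero {n x : ℕ} (h : n = 4 * x) : cD3 n = mu x := by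
  subst h; unfold cD3
  rw [if_pos (by omega)]; congr 1; omega

lemma cD3_one {n x : ℕ} (h : n = 4 * x + 1) : cD3 n = 0 := by
  subst h; unfold cD3
  rw [if_neg (by omega), if_neg (by omega)]

lemma cD3_two {n x : ℕ} (h : n = 4 * x + 2) : cD3 n = 0 := by
  subst h; unfold cD3
  rw [if_neg (by omega), if_neg (by omega)]

lemma cD3_three {n x : ℕ} (h : n = 4 * x + 3) : cD3 n = - mu (x + 1) := by
  subst h; unfold cD3
  rw [if_neg (by omega), if_pos (by omega)]; congr 2; omega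

lemma cY1_even {n x : ℕ} (h : n = 2 * x) : cY1 n = (-1) ^ x * mu x := by
  subst h; unfold cY1
  rw [show 2 * x / 2 = x by omega, pow_mul]; simp

lemma cY1_odd {n x : ℕ} (h : n = 2 * x + 1) : cY1 n = - ((-1) ^ x * mu x) := by
  subst h; unfold cY1
  rw [show (2 * x + 1) / 2 = x by omega, pow_succ, pow_mul]; simp

lemma cY3_even {n x : ℕ} (h : n = 2 * x) : cY3 n = (-1) ^ x * mu x := by
  subst h; unfold cY3
  rw [if_pos (by omega)]; congr 2 <;> omega

lemma cY3_odd {n x : ℕ} (h : n = 2 * x + 1) : cY3 n = mu (x + 1) * cD3 x := by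
  subst h; unfold cY3
  rw [if_neg (by omega)]; congr 2 <;> omega

lemma sgn_sq (x : ℕ) : ((-1 : ℤ) ^ x) * (-1) ^ x = 1 := by rw [← mul_pow]; simp

lemma sgn_even (x : ℕ) : (-1 : ℤ) ^ (2 * x) = 1 := by rw [pow_mul]; simp

lemma sgn_odd (x : ℕ) : (-1 : ℤ) ^ (2 * x + 1) = -1 := by rw [pow_succ, pow_mul]; simp

/-- First key identity. -/
lemma key1 (j : ℕ) : cD0 (j + 1) * mu j = (-1) ^ j * mu j := by
  obtain ⟨y, hy⟩ : ∃ y, j = 4 * y ∨ j = 4 * y + 1 ∨ j = 4 * y + 2 ∨ j = 4 * y + 3 :=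
    ⟨j / 4, by omega⟩
  rcases hy with rfl | rfl | rfl | rfl
  · rw [cD0_one rfl, mu_four_zero rfl, show 4 * y = 2 * (2 * y) by ring, sgn_even, mu_mul_self,
      one_mul]
  · rw [cD0_two (x := y) rfl, mu_four_one rfl, show 4 * y + 1 = 2 * (2 * y) + 1 by ring, sgn_odd]
    linarith [mu_mul_self y]
  · rw [mu_four_two rfl]; ring
  · rw [mu_four_three rfl]; ring

/-- Second key identity. -/
lemma key2 (x : ℕ) : (-1) ^ (x + 1) * mu (x + 1) * (mu (x + 1) * cD3 x) = - mu (x + 1) := by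
  have h0 : (-1) ^ (x + 1) * mu (x + 1) * (mu (x + 1) * cD3 x) =
      (-1) ^ (x + 1) * mu (x + 1) * cD3 x := by
    calc _ = (-1) ^ (x + 1) * (mu (x + 1) * mu (x + 1)) * cD3 x := by ring
      _ = _ := by rw [mu_mul_self]
  rw [h0]
  obtain ⟨y, hy⟩ : ∃ y, x = 4 * y ∨ x = 4 * y + 1 ∨ x = 4 * y + 2 ∨ x = 4 * y + 3 :=
    ⟨x / 4, by omega⟩
  rcases hy with rfl | rfl | rfl | rfl
  · rw [cD3_zero rfl, mu_four_one rfl, show 4 * y + 1 = 2 * (2 * y) + 1 by ring, sgn_odd]
    linarith [mu_mul_self y]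
  · rw [mu_four_two (l := y) (by ring)]; ring
  · rw [mu_four_three (l := y) (by ring)]; ring
  · rw [cD3_three rfl, mu_four_zero (l := y + 1) (by ring),
      show 4 * y + 3 + 1 = 2 * (2 * y + 2) by ring, sgn_even]
    linarith [mu_mul_self (y + 1)]

/-! ### recursions -/

lemma D_even (q n : ℕ) :
    hank dd (2 * q) n = hank mu q ((n + 1) / 2) * hank ee (q + 1) (n / 2) :=
  double_even dd_even dd_odd (fun _ => rfl) q n

lemma D_odd_even (q m : ℕ) :
    hank dd (2 * q + 1) (2 * m) = (-1) ^ m * hank mu (q + 1) m * hank ee (q + 1) m :=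
  double_odd_even dd_even dd_odd (fun _ => rfl) q m

lemma D_odd_odd (q m : ℕ) :
    hank dd (2 * q + 1) (2 * m + 1) = (-1) ^ m * hank mu q (m + 1) * hank ee (q + 2) m :=
  double_odd_odd dd_even dd_odd (fun _ => rfl) q m

lemma G_eq (p n : ℕ) : hank gg p n = (-1) ^ (p * n) * hank dd p n := hank_twist gg_twist p n

lemma X_even (q n : ℕ) :
    hank mu (2 * q) n = hank nu q ((n + 1) / 2) * hank gg (q + 1) (n / 2) :=
  double_even mu_even mu_odd (fun _ => rfl) q n

lemma X_odd_even (q m : ℕ) :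
    hank mu (2 * q + 1) (2 * m) = (-1) ^ m * hank nu (q + 1) m * hank gg (q + 1) m :=
  double_odd_even mu_even mu_odd (fun _ => rfl) q m

lemma X_odd_odd (q m : ℕ) :
    hank mu (2 * q + 1) (2 * m + 1) = (-1) ^ m * hank nu q (m + 1) * hank gg (q + 2) m :=
  double_odd_odd mu_even mu_odd (fun _ => rfl) q m

lemma Y_even (q n : ℕ) :
    hank ee (2 * q) n = hank gg q ((n + 1) / 2) * hank gg (q + 1) (n / 2) :=
  supp_even ee_even ee_odd q n

lemma Y_odd_even (q m : ℕ) :
    hank ee (2 * q + 1) (2 * m) = (-1) ^ m * hank gg (q + 1) m ^ 2 :=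
  supp_odd_even ee_even ee_odd q m

lemma Y_odd_odd (q m : ℕ) : hank ee (2 * q + 1) (2 * m + 1) = 0 := supp_odd_odd ee_odd q m

lemma N_even (q n : ℕ) :
    hank nu (2 * q) n = hank mu q ((n + 1) / 2) * hank mu (q + 1) (n / 2) :=
  supp_even nu_even nu_odd q n

lemma N_odd_even (q m : ℕ) :
    hank nu (2 * q + 1) (2 * m) = (-1) ^ m * hank mu (q + 1) m ^ 2 :=
  supp_odd_even nu_even nu_odd q m

lemma N_odd_odd (q m : ℕ) : hank nu (2 * q + 1) (2 * m + 1) = 0 := supp_odd_odd nu_odd q m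

/-- The simultaneous closed forms at size `n`. -/
structure P (n : ℕ) : Prop where
  D0 : hank dd n n = cD0 n
  D1 : hank dd (n + 1) n = mu n
  D2 : hank dd (n + 2) n = mu n
  D3 : hank dd (n + 3) n = cD3 n
  X0 : hank mu n n = cX0 n
  X1 : hank mu (n + 1) n = cX n
  X2 : hank mu (n + 2) n = cX n
  Xm : ∀ k, n = k + 1 → hank mu k n = cX k
  Y1 : hank ee (n + 1) n = cY1 n
  Y2 : hank ee (n + 2) n = cX n
  Y3 : hank ee (n + 3) n = cY3 n
  N1 : hank nu (n + 1) n = mu n
  N0 : hank nu n n = if n = 0 then 1 else 0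
  Nm : ∀ k, n = k + 1 → hank nu k n = cD0 n

lemma P_zero : P 0 where
  D0 := by rw [hank_zero]; rfl
  D1 := by rw [hank_zero, mu_zero]
  D2 := by rw [hank_zero, mu_zero]
  D3 := by rw [hank_zero, cD3_zero (x := 0) rfl, mu_zero]
  X0 := by rw [hank_zero]; rfl
  X1 := by rw [hank_zero, cX_even (x := 0) rfl, mu_zero]; rfl
  X2 := by rw [hank_zero, cX_even (x := 0) rfl, mu_zero]; rfl
  Xm := by intro k h; omega
  Y1 := by rw [hank_zero, cY1_even (x := 0) rfl, mu_zero]; rfl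
  Y2 := by rw [hank_zero, cX_even (x := 0) rfl, mu_zero]; rfl
  Y3 := by rw [hank_zero, cY3_even (x := 0) rfl, mu_zero]; rfl
  N1 := by rw [hank_zero, mu_zero]
  N0 := by rw [hank_zero]; rfl
  Nm := by intro k h; omega

lemma mu_one : mu 1 = 1 := by rw [mu_four_one (l := 0) rfl, mu_zero]

lemma mu_two : mu 2 = 0 := mu_four_two (l := 0) rfl

lemma mu_three : mu 3 = 0 := mu_four_three (l := 0) rfl

lemma P_one : P 1 where
  D0 := by rw [hank_one, cD0_one (x := 0) rfl]; exact dd_odd 0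
  D1 := by rw [hank_one, show 1 + 1 = 2 * 1 by rfl, dd_even]
  D2 := by rw [hank_one, show 1 + 2 = 2 * 1 + 1 by rfl, dd_odd]
  D3 := by rw [hank_one, show 1 + 3 = 2 * 2 by rfl, dd_even, mu_two, cD3_one (x := 0) rfl]
  X0 := by rw [hank_one, mu_one]; show 1 = cX 0; rw [cX_even (x := 0) rfl, mu_zero]; rfl
  X1 := by rw [hank_one, cX_odd (x := 0) rfl]; exact mu_two
  X2 := by rw [hank_one, cX_odd (x := 0) rfl]; exact mu_three
  Xm := by
    intro k h
    have : k = 0 := by omega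
    subst this
    rw [hank_one, cX_even (x := 0) rfl, mu_zero]; rfl
  Y1 := by
    rw [hank_one, cY1_odd (x := 0) rfl, mu_zero]
    show mu 2 - mu 1 = _
    rw [mu_two, mu_one]; rfl
  Y2 := by
    rw [hank_one, cX_odd (x := 0) rfl]
    show mu 3 - mu 2 = _
    rw [mu_two, mu_three]; rfl
  Y3 := by
    rw [hank_one, cY3_odd (x := 0) rfl, cD3_zero (x := 0) rfl, mu_zero, mu_one]
    show mu 4 - mu 3 = _
    rw [mu_three, mu_four_zero (l := 1) rfl, mu_one]; rfl
  N1 := by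
    rw [hank_one, mu_one, show 1 + 1 = 2 * 1 by rfl, nu_even, mu_one]
  N0 := by rw [hank_one, show (1 : ℕ) = 2 * 0 + 1 by rfl, nu_odd]; rfl
  Nm := by
    intro k h
    have : k = 0 := by omega
    subst this
    rw [hank_one, show (0 : ℕ) = 2 * 0 by rfl, nu_even, mu_zero, cD0_one (x := 0) rfl, mu_zero]

/-! ### inductive steps -/

lemma G1 {j : ℕ} (h : P j) : hank gg (j + 1) j = mu j := by
  rw [G_eq, h.D1, mul_comm (j + 1) j, (Nat.even_mul_succ_self j).neg_one_pow, one_mul]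

lemma G2 {j : ℕ} (h : P j) : hank gg (j + 2) j = (-1) ^ j * mu j := by
  rw [G_eq, h.D2]
  congr 1
  rw [show (j + 2) * j = j * (j + 1) + j by ring, pow_add,
    (Nat.even_mul_succ_self j).neg_one_pow, one_mul]

lemma G3 {j : ℕ} (h : P j) : hank gg (j + 3) j = cD3 j := by
  rw [G_eq, h.D3, show (j + 3) * j = j * (j + 1) + 2 * j by ring, pow_add,
    (Nat.even_mul_succ_self j).neg_one_pow, sgn_even]
  ring

lemma G0 {j : ℕ} (h : P j) : hank gg j j = (-1) ^ j * cD0 j := by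
  rw [G_eq, h.D0]
  congr 1
  rcases Nat.even_or_odd' j with ⟨x, rfl | rfl⟩
  · rw [show 2 * x * (2 * x) = 2 * (x * (2 * x)) by ring, sgn_even, sgn_even]
  · rw [show (2 * x + 1) * (2 * x + 1) = 2 * (x * (2 * x + 1) + x) + 1 by ring, sgn_odd, sgn_odd]

lemma cX_sq_even {j x : ℕ} (h : j = 2 * x) : cX j * cX j = mu x := by
  rw [cX_even h]
  calc (-1) ^ x * mu x * ((-1) ^ x * mu x) = ((-1) ^ x * (-1) ^ x) * (mu x * mu x) := by ring
    _ = mu x := by rw [sgn_sq, mu_mul_self, one_mul]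

lemma cX_sq_odd {j x : ℕ} (h : j = 2 * x + 1) : cX j * cX j = 0 := by
  rw [cX_odd h, zero_mul]

/-- `cX j ^ 2 = mu (2 j)`. -/
lemma sq_eq_even (j : ℕ) : cX j * cX j = mu (2 * j) := by
  rcases Nat.even_or_odd' j with ⟨x, rfl | rfl⟩
  · rw [cX_sq_even rfl, mu_four_zero (n := 2 * (2 * x)) (l := x) (by ring)]
  · rw [cX_sq_odd rfl, mu_four_two (l := x) (by ring)]

lemma sq_eq_odd (j : ℕ) : cX j * cX j = mu (2 * j + 1) := by
  rw [sq_eq_even, mu_even, mu_odd]

lemma sgn_cX (j : ℕ) : (-1) ^ j * (cX j * cX j) = cX j * cX j := by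
  rcases Nat.even_or_odd' j with ⟨x, rfl | rfl⟩
  · rw [sgn_even, one_mul]
  · rw [cX_sq_odd rfl, mul_zero]

lemma sq_eq_D0 (j : ℕ) : cX j * cX j = cD0 (2 * j + 1) := by
  rcases Nat.even_or_odd' j with ⟨x, rfl | rfl⟩
  · rw [cX_sq_even rfl, cD0_one (x := x) (by ring)]
  · rw [cX_sq_odd rfl, cD0_three (x := x) (by ring)]

lemma sq_eq_D3 (j : ℕ) : cX j * cX j = cD3 (2 * j) := by
  rcases Nat.even_or_odd' j with ⟨x, rfl | rfl⟩
  · rw [cX_sq_even rfl, cD3_zero (x := x) (by ring)]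
  · rw [cX_sq_odd rfl, cD3_two (x := x) (by ring)]

lemma P_even {j : ℕ} (hj : 1 ≤ j) (h : P j) : P (2 * j) where
  D0 := by
    rw [D_even, show (2 * j + 1) / 2 = j by omega, show 2 * j / 2 = j by omega, h.X0, h.Y1]
    obtain ⟨k, rfl⟩ : ∃ k, j = k + 1 := ⟨j - 1, by omega⟩
    show cX k * cY1 (k + 1) = _
    rcases Nat.even_or_odd' k with ⟨x, rfl | rfl⟩
    · rw [cX_even rfl, cY1_odd rfl, cD0_two (x := x) (by ring)]
      calc (-1) ^ x * mu x * -((-1) ^ x * mu x) = -(((-1) ^ x * (-1) ^ x) * (mu x * mu x)) := by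
            ring
        _ = _ := by rw [sgn_sq, mu_mul_self, one_mul]
    · rw [cX_odd rfl, cD0_four (x := x) (by ring), zero_mul]
  D1 := by
    rw [D_odd_even, h.X1, h.Y1]
    rcases Nat.even_or_odd' j with ⟨x, rfl | rfl⟩
    · rw [cX_even rfl, cY1_even rfl, mu_four_zero (n := 2 * (2 * x)) (l := x) (by ring), sgn_even]
      calc 1 * ((-1) ^ x * mu x) * ((-1) ^ x * mu x) = ((-1) ^ x * (-1) ^ x) * (mu x * mu x) := by
            ring
        _ = _ := by rw [sgn_sq, mu_mul_self, one_mul]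
    · rw [cX_odd rfl, mu_four_two (l := x) (by ring)]; ring
  D2 := by
    rw [show 2 * j + 2 = 2 * (j + 1) by ring, D_even, show (2 * j + 1) / 2 = j by omega,
      show 2 * j / 2 = j by omega, h.X1, show j + 1 + 1 = j + 2 by ring, h.Y2, sq_eq_even]
  D3 := by
    rw [show 2 * j + 3 = 2 * (j + 1) + 1 by ring, D_odd_even, show j + 1 + 1 = j + 2 by ring,
      h.X2, h.Y2, mul_assoc, sgn_cX, sq_eq_D3]
  X0 := by
    rw [X_even, show (2 * j + 1) / 2 = j by omega, show 2 * j / 2 = j by omega, h.N0,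
      if_neg (by omega), zero_mul]
    obtain ⟨k, rfl⟩ : ∃ k, j = k + 1 := ⟨j - 1, by omega⟩
    show 0 = cX (2 * k + 1)
    rw [cX_odd rfl]
  X1 := by
    rw [X_odd_even, h.N1, G1 h, cX_even rfl, mul_assoc, mu_mul_self]
  X2 := by
    rw [show 2 * j + 2 = 2 * (j + 1) by ring, X_even, show (2 * j + 1) / 2 = j by omega,
      show 2 * j / 2 = j by omega, h.N1, show j + 1 + 1 = j + 2 by ring, G2 h, cX_even rfl]
    calc mu j * ((-1) ^ j * mu j) = (-1) ^ j * (mu j * mu j) := by ring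
      _ = _ := by rw [mu_mul_self]
  Xm := by
    intro k hk
    obtain ⟨i, rfl⟩ : ∃ i, j = i + 1 := ⟨j - 1, by omega⟩
    have : k = 2 * i + 1 := by omega
    subst this
    rw [X_odd_even, h.N0, if_neg (by omega), cX_odd rfl]
    ring
  Y1 := by
    rw [Y_odd_even, G1 h, cY1_even rfl, sq, mu_mul_self]
  Y2 := by
    rw [show 2 * j + 2 = 2 * (j + 1) by ring, Y_even, show (2 * j + 1) / 2 = j by omega,
      show 2 * j / 2 = j by omega, G1 h, show j + 1 + 1 = j + 2 by ring, G2 h, cX_even rfl]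
    calc mu j * ((-1) ^ j * mu j) = (-1) ^ j * (mu j * mu j) := by ring
      _ = _ := by rw [mu_mul_self]
  Y3 := by
    rw [show 2 * j + 3 = 2 * (j + 1) + 1 by ring, Y_odd_even, show j + 1 + 1 = j + 2 by ring,
      G2 h, cY3_even rfl]
    calc (-1) ^ j * ((-1) ^ j * mu j) ^ 2 = (-1) ^ j * (((-1) ^ j * (-1) ^ j) * (mu j * mu j)) := by
          ring
      _ = _ := by rw [sgn_sq, mu_mul_self, one_mul]
  N1 := by
    rw [N_odd_even, h.X1, sq, sgn_cX, sq_eq_even]
  N0 := by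
    rw [N_even, show (2 * j + 1) / 2 = j by omega, show 2 * j / 2 = j by omega, h.X0, h.X1,
      if_neg (by omega)]
    obtain ⟨k, rfl⟩ : ∃ k, j = k + 1 := ⟨j - 1, by omega⟩
    show cX k * cX (k + 1) = 0
    rcases Nat.even_or_odd' k with ⟨x, rfl | rfl⟩
    · rw [cX_odd (n := 2 * x + 1) rfl, mul_zero]
    · rw [cX_odd (n := 2 * x + 1) rfl, zero_mul]
  Nm := by
    intro k hk
    obtain ⟨i, rfl⟩ : ∃ i, j = i + 1 := ⟨j - 1, by omega⟩
    have : k = 2 * i + 1 := by omega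
    subst this
    rw [N_odd_even, h.X0]
    show (-1) ^ (i + 1) * (cX i) ^ 2 = _
    rcases Nat.even_or_odd' i with ⟨x, rfl | rfl⟩
    · rw [sq, cX_sq_even rfl, sgn_odd, cD0_two (x := x) (by ring)]; ring
    · rw [sq, cX_sq_odd rfl, cD0_four (x := x) (by ring)]; ring

lemma P_odd {j : ℕ} (h : P j) (h' : P (j + 1)) : P (2 * j + 1) where
  D0 := by
    rw [D_odd_odd, h'.Xm j rfl, h.Y2, mul_assoc, sgn_cX, sq_eq_D0]
  D1 := by
    rw [show 2 * j + 1 + 1 = 2 * (j + 1) by ring, D_even, show (2 * j + 1 + 1) / 2 = j + 1 by omega,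
      show (2 * j + 1) / 2 = j by omega, h'.X0, show j + 1 + 1 = j + 2 by ring, h.Y2]
    exact sq_eq_odd j
  D2 := by
    rw [show 2 * j + 1 + 2 = 2 * (j + 1) + 1 by ring, D_odd_odd, h'.X0,
      show j + 1 + 2 = j + 3 by ring, h.Y3]
    show (-1) ^ j * cX j * cY3 j = _
    rcases Nat.even_or_odd' j with ⟨x, rfl | rfl⟩
    · rw [cX_even rfl, cY3_even rfl, mu_four_one (n := 2 * (2 * x) + 1) (l := x) (by ring), sgn_even]
      calc 1 * ((-1) ^ x * mu x) * ((-1) ^ x * mu x) = ((-1) ^ x * (-1) ^ x) * (mu x * mu x) := by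
            ring
        _ = _ := by rw [sgn_sq, mu_mul_self, one_mul]
    · rw [cX_odd rfl, mu_four_three (l := x) (by ring)]; ring
  D3 := by
    rw [show 2 * j + 1 + 3 = 2 * (j + 2) by ring, D_even, show (2 * j + 1 + 1) / 2 = j + 1 by omega,
      show (2 * j + 1) / 2 = j by omega, show j + 2 = j + 1 + 1 by ring, h'.X1,
      show j + 1 + 1 + 1 = j + 3 by ring, h.Y3]
    rcases Nat.even_or_odd' j with ⟨x, rfl | rfl⟩
    · rw [cX_odd rfl, cD3_one (x := x) (by ring), zero_mul]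
    · rw [cX_even (x := x + 1) (by ring), cY3_odd rfl,
        cD3_three (n := 2 * (2 * x + 1) + 1) (x := x) (by ring)]
      exact key2 x
  X0 := by
    rw [X_odd_odd, h'.Nm j rfl, G2 h]
    show _ = cX (2 * j)
    rw [cX_even rfl]
    calc (-1) ^ j * cD0 (j + 1) * ((-1) ^ j * mu j)
        = ((-1) ^ j * (-1) ^ j) * (cD0 (j + 1) * mu j) := by ring
      _ = _ := by rw [sgn_sq, one_mul, key1]
  X1 := by
    rw [show 2 * j + 1 + 1 = 2 * (j + 1) by ring, X_even, show (2 * j + 1 + 1) / 2 = j + 1 by omega,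
      h'.N0, if_neg (by omega), cX_odd rfl, zero_mul]
  X2 := by
    rw [show 2 * j + 1 + 2 = 2 * (j + 1) + 1 by ring, X_odd_odd, h'.N0, if_neg (by omega),
      cX_odd rfl]
    ring
  Xm := by
    intro k hk
    have : k = 2 * j := by omega
    subst this
    rw [X_even, show (2 * j + 1 + 1) / 2 = j + 1 by omega, show (2 * j + 1) / 2 = j by omega,
      h'.Nm j rfl, G1 h, key1, cX_even rfl]
  Y1 := by
    rw [show 2 * j + 1 + 1 = 2 * (j + 1) by ring, Y_even, show (2 * j + 1 + 1) / 2 = j + 1 by omega,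
      show (2 * j + 1) / 2 = j by omega, G0 h', show j + 1 + 1 = j + 2 by ring, G2 h, cY1_odd rfl]
    calc (-1) ^ (j + 1) * cD0 (j + 1) * ((-1) ^ j * mu j)
        = -(((-1) ^ j * (-1) ^ j) * (cD0 (j + 1) * mu j)) := by ring
      _ = _ := by rw [sgn_sq, one_mul, key1]
  Y2 := by
    rw [show 2 * j + 1 + 2 = 2 * (j + 1) + 1 by ring, Y_odd_odd, cX_odd rfl]
  Y3 := by
    rw [show 2 * j + 1 + 3 = 2 * (j + 2) by ring, Y_even, show (2 * j + 1 + 1) / 2 = j + 1 by omega,
      show (2 * j + 1) / 2 = j by omega, show j + 2 = j + 1 + 1 by ring, G1 h',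
      show j + 1 + 1 + 1 = j + 3 by ring, G3 h, cY3_odd rfl]
  N1 := by
    rw [show 2 * j + 1 + 1 = 2 * (j + 1) by ring, N_even, show (2 * j + 1 + 1) / 2 = j + 1 by omega,
      show (2 * j + 1) / 2 = j by omega, h'.X0, show j + 1 + 1 = j + 2 by ring, h.X2]
    exact sq_eq_odd j
  N0 := by
    rw [N_odd_odd, if_neg (by omega)]
  Nm := by
    intro k hk
    have : k = 2 * j := by omega
    subst this
    rw [N_even, show (2 * j + 1 + 1) / 2 = j + 1 by omega, show (2 * j + 1) / 2 = j by omega,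
      h'.Xm j rfl, h.X1, sq_eq_D0]

theorem P_all (n : ℕ) : P n := by
  induction n using Nat.strong_induction_on with
  | _ n ih =>
    rcases Nat.lt_or_ge n 2 with h | h
    · rcases n with _ | n
      · exact P_zero
      · have : n = 0 := by omega
        subst this
        exact P_one
    · rcases Nat.even_or_odd' n with ⟨j, rfl | rfl⟩
      · exact P_even (by omega) (ih j (by omega))
      · exact P_odd (ih j (by omega)) (ih (j + 1) (by omega))

end Pool.Agent.Helper20.HK
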