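import Mathlib

set_option autoImplicit false

namespace Pool.Agent.Helper20.HK

/-- The Prouhet-Thue-Morse sequence `t_n = s_2(n) mod 2`, as elements of the field with two
elements. -/
def tm (n : ℕ) : ZMod 2 := ((Nat.digits 2 n).sum : ℕ)

/-- The Thue-Morse series, the sum of `t_n X^n` over `F_2` (note that `t_0 = 0`). -/
def tmSeries : PowerSeries (ZMod 2) := PowerSeries.mk tm

end Pool.Agent.Helper20.HK
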