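import Mathlib
import Pool.Agent.Helper20.HK.Closed
import Pool.Agent.Helper20.HK.Defs

set_option autoImplicit false

namespace Pool.Agent.Helper20.HK

open PowerSeries

lemma z2_add_self (x : ZMod 2) : x + x = 0 := CharTwo.add_self_eq_zero x

lemma ps_add_self (f : PowerSeries (ZMod 2)) : f + f = 0 := by
  ext n
  simp [z2_add_self]

lemma z2_sq (x : ZMod 2) : x * x = x := by
  revert x; decide

lemma tm_even (n : ℕ) : tm (2 * n) = tm n := by
  unfold tm
  rcases Nat.eq_zero_or_pos n with rfl | hn
  · simp
  · rw [Nat.digits_def' (by norm_num) (by omega)]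
    simp

lemma tm_odd (n : ℕ) : tm (2 * n + 1) = tm n + 1 := by
  unfold tm
  rw [Nat.digits_def' (by norm_num) (by omega)]
  have h1 : (2 * n + 1) % 2 = 1 := by omega
  have h2 : (2 * n + 1) / 2 = n := by omega
  rw [h1, h2, List.sum_cons]
  push_cast
  ring

/-- Coefficients of a square in characteristic two. -/
lemma coeff_sq_even (f : PowerSeries (ZMod 2)) (n : ℕ) : coeff (2 * n) (f * f) = coeff n f := by
  rw [coeff_mul]
  have hmem : (n, n) ∈ Finset.HasAntidiagonal.antidiagonal (2 * n) := by
    rw [Finset.HasAntidiagonal.mem_antidiagonal]; ring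
  rw [← Finset.add_sum_erase _ _ hmem]
  have h0 : ∑ x ∈ (Finset.HasAntidiagonal.antidiagonal (2 * n)).erase (n, n), coeff x.1 f * coeff x.2 f = 0 := by
    apply Finset.sum_involution (fun x _ => (x.2, x.1))
    · intro x _
      simp only
      rw [mul_comm (coeff x.2 f)]
      exact z2_add_self _
    · intro x hx _ h
      rw [Finset.mem_erase, Finset.HasAntidiagonal.mem_antidiagonal] at hx
      apply hx.1
      have h1 : x.2 = x.1 := congrArg Prod.fst h
      ext
      · simp only; omega
      · simp only; omega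
    · intro x hx
      rw [Finset.mem_erase, Finset.HasAntidiagonal.mem_antidiagonal] at hx ⊢
      refine ⟨fun h => hx.1 ?_, by simp only; omega⟩
      have h1 : x.2 = n := congrArg Prod.fst h
      have h2 : x.1 = n := congrArg Prod.snd h
      exact Prod.ext h2 h1
    · intro x _
      rfl
  rw [h0, add_zero]
  exact z2_sq _

lemma coeff_sq_odd (f : PowerSeries (ZMod 2)) (n : ℕ) : coeff (2 * n + 1) (f * f) = 0 := by
  rw [coeff_mul]
  apply Finset.sum_involution (fun x _ => (x.2, x.1))
  · intro x _
    simp only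
    rw [mul_comm (coeff x.2 f)]
    exact z2_add_self _
  · intro x hx _ h
    rw [Finset.HasAntidiagonal.mem_antidiagonal] at hx
    have h1 : x.2 = x.1 := congrArg Prod.fst h
    omega
  · intro x hx
    rw [Finset.HasAntidiagonal.mem_antidiagonal] at hx ⊢
    simp only; omega
  · intro x _
    rfl

/-- The series `X + X^3 + X^5 + ...`. -/
def oddSeries : PowerSeries (ZMod 2) := PowerSeries.mk (fun n => if n % 2 = 1 then 1 else 0)

lemma oddSeries_eq : (1 + X * X) * oddSeries = (X : PowerSeries (ZMod 2)) := by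
  ext n
  rw [add_mul, one_mul, map_add, mul_assoc]
  rcases n with _ | _ | n
  · simp [oddSeries]
  · rw [coeff_succ_X_mul]
    simp [oddSeries]
  · rw [coeff_succ_X_mul, coeff_succ_X_mul]
    have h1 : coeff (n + 1 + 1) (X : PowerSeries (ZMod 2)) = 0 := by
      rw [coeff_X, if_neg (by omega)]
    have h2 : coeff (n + 1 + 1) oddSeries = coeff n oddSeries := by
      simp only [oddSeries, coeff_mk]
      have : (n + 1 + 1) % 2 = n % 2 := by omega
      rw [this]
    rw [h1, h2]
    exact z2_add_self _

lemma tm_eq : tmSeries = (1 + X) * (tmSeries * tmSeries) + oddSeries := by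
  ext n
  rw [map_add, add_mul, one_mul, map_add]
  rcases Nat.even_or_odd' n with ⟨m, rfl | rfl⟩
  · rw [coeff_sq_even]
    have h1 : coeff (2 * m) (X * (tmSeries * tmSeries)) = 0 := by
      rcases m with _ | m
      · simp
      · rw [show 2 * (m + 1) = 2 * m + 1 + 1 by ring, coeff_succ_X_mul, coeff_sq_odd]
    rw [h1]
    simp [oddSeries, tmSeries, tm_even]
  · rw [coeff_sq_odd, coeff_succ_X_mul, coeff_sq_even]
    simp only [oddSeries, tmSeries, coeff_mk, tm_odd]
    rw [if_pos (by omega), zero_add]

/-- The algebraic equation of the Thue-Morse series. -/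
lemma tm_alg : (1 + X) ^ 3 * tmSeries ^ 2 + (1 + X) ^ 2 * tmSeries + (X : PowerSeries (ZMod 2)) =
    0 := by
  have h1 := tm_eq
  have h2 := oddSeries_eq
  have h3 : (1 + X * X : PowerSeries (ZMod 2)) = (1 + X) ^ 2 := by
    have := ps_add_self (X : PowerSeries (ZMod 2))
    linear_combination -this
  rw [h3] at h2
  have h4 : (1 + X) ^ 2 * tmSeries = (1 + X) ^ 3 * tmSeries ^ 2 + X := by
    calc (1 + X) ^ 2 * tmSeries = (1 + X) ^ 2 * ((1 + X) * (tmSeries * tmSeries) + oddSeries) := by
          rw [← h1]
      _ = (1 + X) ^ 3 * tmSeries ^ 2 + (1 + X) ^ 2 * oddSeries := by ring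
      _ = _ := by rw [h2]
  rw [h4]
  have h5 := ps_add_self ((1 + X) ^ 3 * tmSeries ^ 2)
  have h6 := ps_add_self (X : PowerSeries (ZMod 2))
  linear_combination h5 + h6

/-- The Moser-de Bruijn series. -/
def muSeries : PowerSeries (ZMod 2) := PowerSeries.mk (fun n => (mu n : ZMod 2))

/-- The shifted coefficient series. -/
def ddSeries : PowerSeries (ZMod 2) := PowerSeries.mk (fun n => (dd n : ZMod 2))

lemma muSeries_eq : muSeries = (1 + X) * ((muSeries * muSeries) * (muSeries * muSeries)) := by
  ext n
  rw [add_mul, one_mul, map_add]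
  have hfour : ∀ m, coeff (4 * m) ((muSeries * muSeries) * (muSeries * muSeries)) =
      coeff m muSeries := by
    intro m
    rw [show 4 * m = 2 * (2 * m) by ring, coeff_sq_even, coeff_sq_even]
  have htwo : ∀ m, coeff (4 * m + 2) ((muSeries * muSeries) * (muSeries * muSeries)) = 0 := by
    intro m
    rw [show 4 * m + 2 = 2 * (2 * m + 1) by ring, coeff_sq_even, coeff_sq_odd]
  have hone : ∀ m, coeff (4 * m + 1) ((muSeries * muSeries) * (muSeries * muSeries)) = 0 := by
    intro m
    rw [show 4 * m + 1 = 2 * (2 * m) + 1 by ring, coeff_sq_odd]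
  have hthree : ∀ m, coeff (4 * m + 3) ((muSeries * muSeries) * (muSeries * muSeries)) = 0 := by
    intro m
    rw [show 4 * m + 3 = 2 * (2 * m + 1) + 1 by ring, coeff_sq_odd]
  have hc : ∀ m, coeff m muSeries = (mu m : ZMod 2) := fun m => coeff_mk _ _
  obtain ⟨y, hy⟩ : ∃ y, n = 4 * y ∨ n = 4 * y + 1 ∨ n = 4 * y + 2 ∨ n = 4 * y + 3 :=
    ⟨n / 4, by omega⟩
  rcases hy with rfl | rfl | rfl | rfl
  · have h1 : coeff (4 * y) (X * ((muSeries * muSeries) * (muSeries * muSeries))) = 0 := by
      rcases y with _ | y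
      · simp
      · rw [show 4 * (y + 1) = 4 * y + 3 + 1 by ring, coeff_succ_X_mul, hthree]
    rw [h1, hfour, hc, hc, mu_four_zero rfl, add_zero]
  · rw [hone, coeff_succ_X_mul, hfour, hc, hc, mu_four_one rfl, zero_add]
  · rw [htwo, coeff_succ_X_mul, hone, hc, mu_four_two rfl]; simp
  · rw [hthree, coeff_succ_X_mul, htwo, hc, mu_four_three rfl]; simp

lemma ddSeries_eq : ddSeries = (1 + X) * (muSeries * muSeries) := by
  ext n
  rw [add_mul, one_mul, map_add]
  have hc : ∀ m, coeff m muSeries = (mu m : ZMod 2) := fun m => coeff_mk _ _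
  have hd : ∀ m, coeff m ddSeries = (dd m : ZMod 2) := fun m => coeff_mk _ _
  rcases Nat.even_or_odd' n with ⟨m, rfl | rfl⟩
  · have h1 : coeff (2 * m) (X * (muSeries * muSeries)) = 0 := by
      rcases m with _ | m
      · simp
      · rw [show 2 * (m + 1) = 2 * m + 1 + 1 by ring, coeff_succ_X_mul, coeff_sq_odd]
    rw [h1, coeff_sq_even, hc, hd, dd_even, add_zero]
  · rw [coeff_sq_odd, coeff_succ_X_mul, coeff_sq_even, hc, hd, dd_odd, zero_add]

lemma muSeries_ne_zero : muSeries ≠ 0 := by
  intro h
  have h1 := congrArg (coeff 0) h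
  rw [show coeff 0 muSeries = (mu 0 : ZMod 2) from coeff_mk _ _, mu_zero] at h1
  simp at h1

lemma muSeries_cube : (1 + X) * muSeries ^ 3 = (1 : PowerSeries (ZMod 2)) := by
  have h := muSeries_eq
  have h2 : muSeries * ((1 + X) * muSeries ^ 3) = muSeries * 1 := by
    calc muSeries * ((1 + X) * muSeries ^ 3) =
        (1 + X) * ((muSeries * muSeries) * (muSeries * muSeries)) := by ring
      _ = muSeries := h.symm
      _ = muSeries * 1 := (mul_one _).symm
  exact mul_left_cancel₀ muSeries_ne_zero h2

/-- The shifted series is the cube root of `1 + X`. -/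
lemma ddSeries_cube : ddSeries ^ 3 = (1 + X : PowerSeries (ZMod 2)) := by
  rw [ddSeries_eq]
  calc ((1 + X) * (muSeries * muSeries)) ^ 3 = (1 + X) * ((1 + X) * muSeries ^ 3) ^ 2 := by ring
    _ = 1 + X := by rw [muSeries_cube]; ring

lemma ddSeries_const : constantCoeff ddSeries = 1 := by
  rw [← coeff_zero_eq_constantCoeff_apply]
  rw [show coeff 0 ddSeries = (dd 0 : ZMod 2) from coeff_mk _ _]
  unfold dd
  rw [Nat.zero_div, mu_zero]
  simp

/-- Uniqueness of the cube root. -/
lemma cube_unique {A B : PowerSeries (ZMod 2)} (hA : constantCoeff A = 1)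
    (hB : constantCoeff B = 1) (h : A ^ 3 = B ^ 3) : A = B := by
  have h1 : (A - B) * (A ^ 2 + A * B + B ^ 2) = 0 := by linear_combination h
  rcases mul_eq_zero.mp h1 with h2 | h2
  · exact sub_eq_zero.mp h2
  · exfalso
    have h3 := congrArg constantCoeff h2
    simp only [map_add, map_mul, map_pow, hA, hB, map_zero] at h3
    revert h3; decide

/-- The inverse series. -/
def gSeries : PowerSeries (ZMod 2) :=
  PowerSeries.mk (fun m => if m = 0 then 0 else (dd (m + 1) : ZMod 2))

lemma gSeries_const : constantCoeff gSeries = 0 := by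
  rw [← coeff_zero_eq_constantCoeff_apply]
  simp [gSeries]

lemma dd_zero : dd 0 = 1 := by unfold dd; rw [Nat.zero_div, mu_zero]

lemma dd_one : dd 1 = 1 := by unfold dd; rw [show 1 / 2 = 0 by norm_num, mu_zero]

lemma gSeries_rel : 1 + X + X * gSeries = ddSeries := by
  ext n
  rw [map_add, map_add]
  have hd : ∀ m, coeff m ddSeries = (dd m : ZMod 2) := fun m => coeff_mk _ _
  rcases n with _ | _ | n
  · rw [hd, dd_zero]; simp
  · rw [coeff_succ_X_mul, hd, dd_one]
    simp [gSeries, coeff_one]
  · rw [coeff_succ_X_mul, hd]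
    simp [gSeries, coeff_one, coeff_X]

/-- The equation of the inverse series. -/
lemma alg_of_cube {G : PowerSeries (ZMod 2)}
    (h : (1 + X + X * G) ^ 3 = (1 + X : PowerSeries (ZMod 2))) :
    (1 + G) ^ 3 * X ^ 2 + (1 + G) ^ 2 * X + G = 0 := by
  have h1 : X * ((1 + G) ^ 3 * X ^ 2 + (1 + G) ^ 2 * X + G) = (X : PowerSeries (ZMod 2)) * 0 := by
    have e1 := ps_add_self (X * G)
    have e2 := ps_add_self (X * (1 + G))
    have e3 := ps_add_self (X ^ 2 * (1 + G) ^ 2)
    linear_combination h - e2 - e3
  exact mul_left_cancel₀ X_ne_zero h1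

lemma cube_of_alg {G : PowerSeries (ZMod 2)}
    (h : (1 + G) ^ 3 * X ^ 2 + (1 + G) ^ 2 * X + G = 0) :
    (1 + X + X * G) ^ 3 = (1 + X : PowerSeries (ZMod 2)) := by
  have e2 := ps_add_self (X * (1 + G))
  have e3 := ps_add_self (X ^ 2 * (1 + G) ^ 2)
  linear_combination X * h + e2 + e3

lemma gSeries_alg : (1 + gSeries) ^ 3 * X ^ 2 + (1 + gSeries) ^ 2 * X + gSeries = 0 := by
  apply alg_of_cube
  rw [gSeries_rel]
  exact ddSeries_cube

lemma tm_const : constantCoeff tmSeries = 0 := by
  rw [← coeff_zero_eq_constantCoeff_apply]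
  simp [tmSeries, tm]

/-- Substituting in the equation of the Thue-Morse series. -/
lemma subst_alg {G : PowerSeries (ZMod 2)} (hG : constantCoeff G = 0) :
    (1 + G) ^ 3 * (subst G tmSeries) ^ 2 + (1 + G) ^ 2 * (subst G tmSeries) + G =
      (0 : PowerSeries (ZMod 2)) := by
  have ha : HasSubst G := HasSubst.of_constantCoeff_zero' hG
  have h := congrArg (substAlgHom (R := ZMod 2) ha) tm_alg
  rw [map_add, map_add, map_mul, map_mul, map_pow, map_pow, map_pow, map_add, map_one,
    map_zero, substAlgHom_X, coe_substAlgHom] at h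
  exact h

/-- Uniqueness of the inverse. -/
lemma inverse_unique {G : PowerSeries (ZMod 2)} (hG : constantCoeff G = 0)
    (h : subst G tmSeries = (X : PowerSeries (ZMod 2))) : G = gSeries := by
  have h1 := subst_alg hG
  rw [h] at h1
  have h2 := cube_of_alg h1
  have h3 : 1 + X + X * G = ddSeries := by
    apply cube_unique
    · simp
    · exact ddSeries_const
    · rw [h2, ddSeries_cube]
  rw [← gSeries_rel] at h3
  have h4 : X * G = X * gSeries := by linear_combination h3
  exact mul_left_cancel₀ X_ne_zero h4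

/-- The right inverse. -/
lemma right_inverse : subst gSeries tmSeries = (X : PowerSeries (ZMod 2)) := by
  set H : PowerSeries (ZMod 2) := subst gSeries tmSeries with hH
  have h1 := subst_alg gSeries_const
  rw [← hH] at h1
  have h2 := gSeries_alg
  have h3 : (H - X) * ((1 + gSeries) ^ 3 * (H + X) + (1 + gSeries) ^ 2) = 0 := by
    linear_combination h1 - h2
  have hHc : constantCoeff H = 0 := by
    have := constantCoeff_subst_eq_zero (a := gSeries) gSeries_const tmSeries tm_const
    exact this
  rcases mul_eq_zero.mp h3 with h4 | h4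
  · exact sub_eq_zero.mp h4
  · exfalso
    have h5 := congrArg constantCoeff h4
    simp [hHc, gSeries_const] at h5

/-- The left inverse. -/
lemma left_inverse : subst tmSeries gSeries = (X : PowerSeries (ZMod 2)) := by
  set K : PowerSeries (ZMod 2) := subst tmSeries gSeries with hK
  have ha : HasSubst tmSeries := HasSubst.of_constantCoeff_zero' tm_const
  have h := congrArg (substAlgHom (R := ZMod 2) ha) gSeries_alg
  rw [map_add, map_add, map_mul, map_mul, map_pow, map_pow, map_pow, map_add, map_one,
    map_zero, substAlgHom_X, coe_substAlgHom] at h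
  have h1 : (1 + K) ^ 3 * tmSeries ^ 2 + (1 + K) ^ 2 * tmSeries + K = 0 := h
  have h2 := tm_alg
  have hKc : constantCoeff K = 0 := by
    have := constantCoeff_subst_eq_zero (a := tmSeries) tm_const gSeries gSeries_const
    exact this
  have h3 : (K - X) * (1 + tmSeries * ((1 + K) + (1 + X)) +
      tmSeries ^ 2 * ((1 + K) ^ 2 + (1 + K) * (1 + X) + (1 + X) ^ 2)) = 0 := by
    linear_combination h1 - h2
  rcases mul_eq_zero.mp h3 with h4 | h4
  · exact sub_eq_zero.mp h4
  · exfalso
    have h5 := congrArg constantCoeff h4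
    simp [hKc, tm_const] at h5

/-- Characterization of the Moser-de Bruijn indicator. -/
lemma mu_eq_one_iff (n : ℕ) : mu n = 1 ↔ ∃ S : Finset ℕ, n = ∑ k ∈ S, 4 ^ k := by
  constructor
  · induction n using Nat.strong_induction_on with
    | _ n ih =>
      intro h
      rcases Nat.eq_zero_or_pos n with rfl | hn
      · exact ⟨∅, by simp⟩
      · rw [mu, if_neg (by omega)] at h
        split_ifs at h with h4
        · obtain ⟨S, hS⟩ := ih (n / 4) (by omega) h
          have hinj : Function.Injective Nat.succ := Nat.succ_injective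
          have hsum : ∑ k ∈ S.map ⟨Nat.succ, hinj⟩, 4 ^ k = 4 * (n / 4) := by
            rw [Finset.sum_map, hS, Finset.mul_sum]
            apply Finset.sum_congr rfl
            intro k _
            simp only [Function.Embedding.coeFn_mk, Nat.succ_eq_add_one]
            ring
          by_cases h0 : n % 4 = 0
          · exact ⟨S.map ⟨Nat.succ, hinj⟩, by rw [hsum]; omega⟩
          · refine ⟨insert 0 (S.map ⟨Nat.succ, hinj⟩), ?_⟩
            rw [Finset.sum_insert, hsum, pow_zero]
            · omega
            · simp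
        · exact absurd h (by norm_num)
  · rintro ⟨S, hS⟩
    induction n using Nat.strong_induction_on generalizing S with
    | _ n ih =>
      rcases Nat.eq_zero_or_pos n with rfl | hn
      · exact mu_zero
      · -- split off 0
        have hT : ∑ k ∈ S.erase 0, 4 ^ k = 4 * ∑ k ∈ (S.erase 0).image Nat.pred, 4 ^ k := by
          rw [Finset.sum_image, Finset.mul_sum]
          · apply Finset.sum_congr rfl
            intro k hk
            have : k ≠ 0 := (Finset.mem_erase.mp hk).1
            obtain ⟨l, rfl⟩ := Nat.exists_eq_succ_of_ne_zero this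
            simp only [Nat.pred_succ, Nat.succ_eq_add_one]
            ring
          · intro a ha b hb hab
            have h1 : a ≠ 0 := (Finset.mem_erase.mp ha).1
            have h2 : b ≠ 0 := (Finset.mem_erase.mp hb).1
            simp only [Nat.pred_eq_sub_one] at hab
            omega
        by_cases h0 : 0 ∈ S
        · have h1 : n = 4 * (∑ k ∈ (S.erase 0).image Nat.pred, 4 ^ k) + 1 := by
            rw [hS, ← Finset.add_sum_erase S _ h0, hT, pow_zero]; ring
          rw [mu_four_one h1]
          exact ih _ (by omega) _ rfl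
        · have h1 : n = 4 * (∑ k ∈ (S.erase 0).image Nat.pred, 4 ^ k) := by
            rw [← hT, Finset.erase_eq_of_notMem h0, hS]
          rw [mu_four_zero h1]
          exact ih _ (by omega) _ rfl

lemma gSeries_coeff_val {m : ℕ} (hm : m ≠ 0) : (((coeff m gSeries).val : ℕ) : ℤ) = dd (m + 1) := by
  have h1 : coeff m gSeries = (dd (m + 1) : ZMod 2) := by
    rw [gSeries, coeff_mk, if_neg hm]
  rw [h1]
  unfold dd
  rcases mu_zero_or_one ((m + 1) / 2) with h | h <;> rw [h]
  · simp
  · rfl

end Pool.Agent.Helper20.HK
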